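import Pool.Agent.helper32.EXT.Spec7

set_option autoImplicit false

open Finset

namespace Pool.Agent.EXT

open Pool.Agent.EXC

theorem OR7 (hWA7 : WA7_stmt) (hEM7 : EM7_stmt) : OR7_stmt := by
  intro K _ τ hτ χ c hc hc0 r l hr hl hi Z hZ N hN
  have hw : ∀ v : Fin 8 → ℤ, gw7 χ c l (em7 fun i => (v i : K) * c ^ (cv7 χ (mu7 i))) =
      em7 fun i => (az7 l v i : K) * c ^ (cv7 χ (mu7 i)) := (hWA7 K τ hτ χ c hc hc0 l l).2.2.2
  obtain ⟨hmem, hinj⟩ := hEM7 K τ hτ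
  have hfix : ∀ (v : Fin 8 → ℤ) (i : Fin 8), τ ((v i : K) * c ^ (cv7 χ (mu7 i))) = (v i : K) * c ^ (cv7 χ (mu7 i)) := by
    intro v i
    rw [map_mul, map_intCast, map_zpow₀, hc]
  -- the vectors
  let w : (Fin 8 → ℤ) → LT τ := fun v => ⟨em7 fun i => (v i : K) * c ^ (cv7 χ (mu7 i)), hmem _ (hfix v)⟩
  have h1 : ∀ v : Fin 8 → ℤ, Z (w v) = w (az7 l v) := by
    intro v
    apply Subtype.ext
    rw [hZ]
    exact hw v
  have h2 : ∀ (k : ℕ) (v : Fin 8 → ℤ), (Z ^ k) (w v) = w ((az7 l)^[k] v) := by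
    intro k
    induction k with
    | zero =>
      intro v
      rw [pow_zero]
      rfl
    | succ k ih =>
      intro v
      rw [pow_succ, Equiv.Perm.mul_apply, h1, ih, Function.iterate_succ_apply]
  have h3 : (Z ^ r) (w e7v) = w e7v := by
    rw [h2, hl]
  have h4 : Z (w e7v) ≠ w e7v := by
    intro h
    rw [h1] at h
    have h5 : (fun i => (az7 l e7v i : K) * c ^ (cv7 χ (mu7 i))) = fun i => (e7v i : K) * c ^ (cv7 χ (mu7 i)) :=
      hinj _ _ (congrArg Subtype.val h)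
    obtain ⟨i, hi⟩ := hi
    have h6 := congrFun h5 i
    have h7 : c ^ (cv7 χ (mu7 i)) ≠ 0 := zpow_ne_zero _ hc0
    have h8 : ((az7 l e7v i : ℤ) : K) = (e7v i : K) := mul_right_cancel₀ h7 h6
    have h9 : (((az7 l e7v i - e7v i : ℤ)) : K) = 0 := by
      rw [Int.cast_sub, h8, sub_self]
    rcases hi with hi | hi
    · rw [hi] at h9
      simp at h9
    · rw [hi] at h9
      simp at h9
  have h5 : (Z ^ N) (w e7v) = w e7v := by
    rw [hN]
    rfl
  by_contra hdvd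
  apply h4
  have hcop : Nat.Coprime r N := (Nat.Prime.coprime_iff_not_dvd hr).2 hdvd
  let S : Subgroup (Equiv.Perm (LT τ)) := MulAction.stabilizer _ (w e7v)
  have m1 : Z ^ r ∈ S := h3
  have m2 : Z ^ N ∈ S := h5
  have m3 : Z ∈ S := by
    have hb := Nat.gcd_eq_gcd_ab r N
    rw [hcop] at hb
    have : Z = (Z ^ r) ^ (Nat.gcdA r N) * (Z ^ N) ^ (Nat.gcdB r N) := by
      rw [← zpow_natCast Z r, ← zpow_natCast Z N, ← zpow_mul, ← zpow_mul, ← zpow_add]
      have h6 : (r : ℤ) * Nat.gcdA r N + (N : ℤ) * Nat.gcdB r N = 1 := by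
        rw [← hb]
        rfl
      rw [h6, zpow_one]
    rw [this]
    exact S.mul_mem (S.zpow_mem m1 _) (S.zpow_mem m2 _)
  exact m3

end Pool.Agent.EXT
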